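import Pool.Agent.W689.Gd.Defs

set_option autoImplicit false

open Filter Topology Set

namespace Pool.Agent.W689.Gd

/-- pairs `(h, φ)`: `h` a pseudonorm with the parallelogram law, `φ` additive, `|φ| ≤ c h` if
`c = some N` -/
def Pairs (c : Option ℕ) : Set ((V → ℝ) × (V → ℝ)) :=
  {p | (∀ v, 0 ≤ p.1 v) ∧ (∀ (q : ℚ) (v : V), p.1 (q • v) = |(q : ℝ)| * p.1 v) ∧
    (∀ u v, p.1 (u + v) ≤ p.1 u + p.1 v) ∧
    (∀ u v, p.1 (u + v) ^ 2 + p.1 (u - v) ^ 2 = 2 * (p.1 u ^ 2 + p.1 v ^ 2)) ∧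
    (∀ u v, p.2 (u + v) = p.2 u + p.2 v) ∧
    ∀ N, c = some N → ∀ v, |p.2 v| ≤ N * p.1 v}

theorem isClosed_pairs (c : Option ℕ) : IsClosed (Pairs c) := by
  have h1 : ∀ v : V, Continuous fun p : (V → ℝ) × (V → ℝ) => p.1 v := fun v =>
    (continuous_apply v).comp continuous_fst
  have h2 : ∀ v : V, Continuous fun p : (V → ℝ) × (V → ℝ) => p.2 v := fun v =>
    (continuous_apply v).comp continuous_snd
  simp only [Pairs, setOf_and, setOf_forall]
  refine ((isClosed_iInter fun v => isClosed_le continuous_const (h1 v)).inter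
    ((isClosed_iInter fun q => isClosed_iInter fun v => isClosed_eq (h1 _)
      (continuous_const.mul (h1 v))).inter
    ((isClosed_iInter fun u => isClosed_iInter fun v => isClosed_le (h1 _)
      ((h1 u).add (h1 v))).inter
    ((isClosed_iInter fun u => isClosed_iInter fun v => isClosed_eq
      (((h1 _).pow 2).add ((h1 _).pow 2))
      (continuous_const.mul (((h1 u).pow 2).add ((h1 v).pow 2)))).inter
    ((isClosed_iInter fun u => isClosed_iInter fun v => isClosed_eq (h2 _)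
      ((h2 u).add (h2 v))).inter
    (isClosed_iInter fun N => isClosed_iInter fun _ => isClosed_iInter fun v =>
      isClosed_le (h2 v).abs (continuous_const.mul (h1 v))))))))

/-- pseudonorms that are the maximum of `h` and `|φ|` for some `(h, φ) ∈ R` -/
def MaxRep (R : Set ((V → ℝ) × (V → ℝ))) : Set PN :=
  {μ | ∃ p ∈ R, (∀ v, 0 ≤ p.1 v) ∧ ∀ v, μ.1 v = max (p.1 v) |p.2 v|}

theorem isClosed_maxRep (R : Set ((V → ℝ) × (V → ℝ))) (hR : IsClosed R) :
    IsClosed (MaxRep R) := by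
  classical
  rw [isClosed_iff_ultrafilter]
  intro μ u hu hS
  -- choice of representations
  have hch : ∃ g : PN → (V → ℝ) × (V → ℝ), ∀ ν ∈ MaxRep R, g ν ∈ R ∧ (∀ v, 0 ≤ (g ν).1 v) ∧
      ∀ v, ν.1 v = max ((g ν).1 v) |(g ν).2 v| := by
    refine ⟨fun ν => if h : ν ∈ MaxRep R then Classical.choose h else 0, fun ν hν => ?_⟩
    simp only [hν, dif_pos]
    obtain ⟨a, b, c⟩ := Classical.choose_spec hν
    exact ⟨a, b, c⟩
  obtain ⟨g, hg⟩ := hch
  have hev : ∀ v : V, Tendsto (fun ν : PN => ν.1 v) u (𝓝 (μ.1 v)) := fun v =>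
    (((continuous_apply v).comp continuous_subtype_val).tendsto μ).mono_left hu
  have hbd : ∀ v : V, ∀ᶠ ν in (u : Filter PN), ν.1 v ≤ μ.1 v + 1 := fun v =>
    (hev v).eventually (eventually_le_nhds (by linarith))
  have hlim1 : ∀ v : V, ∃ x : ℝ, Tendsto (fun ν => (g ν).1 v) u (𝓝 x) := by
    intro v
    have hK : IsCompact (Icc (0 : ℝ) (μ.1 v + 1)) := isCompact_Icc
    obtain ⟨x, _, hx⟩ := hK.ultrafilter_le_nhds (u.map fun ν => (g ν).1 v) (by
      rw [Ultrafilter.coe_map, le_principal_iff, mem_map]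
      filter_upwards [hS, hbd v] with ν h1 h2
      obtain ⟨_, h4, h5⟩ := hg ν h1
      exact ⟨h4 v, le_trans (le_max_left _ _) ((h5 v).symm.le.trans h2)⟩)
    exact ⟨x, hx⟩
  have hlim2 : ∀ v : V, ∃ x : ℝ, Tendsto (fun ν => (g ν).2 v) u (𝓝 x) := by
    intro v
    have hK : IsCompact (Icc (-(μ.1 v + 1)) (μ.1 v + 1)) := isCompact_Icc
    obtain ⟨x, _, hx⟩ := hK.ultrafilter_le_nhds (u.map fun ν => (g ν).2 v) (by
      rw [Ultrafilter.coe_map, le_principal_iff, mem_map]
      filter_upwards [hS, hbd v] with ν h1 h2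
      obtain ⟨_, h4, h5⟩ := hg ν h1
      exact abs_le.1 (le_trans (le_max_right _ _) ((h5 v).symm.le.trans h2)))
    exact ⟨x, hx⟩
  choose H hH using hlim1
  choose F hF using hlim2
  have hpair : Tendsto g u (𝓝 (H, F)) := by
    rw [nhds_prod_eq]
    exact (tendsto_pi_nhds.2 hH).prodMk (tendsto_pi_nhds.2 hF)
  refine ⟨(H, F), ?_, ?_, ?_⟩
  · exact hR.mem_of_tendsto hpair (by filter_upwards [hS] with ν h1 using (hg ν h1).1)
  · intro v
    exact ge_of_tendsto (hH v) (by filter_upwards [hS] with ν h1 using (hg ν h1).2.1 v)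
  · intro v
    refine tendsto_nhds_unique (hev v) ?_
    refine ((hH v).max (hF v).abs).congr' ?_
    filter_upwards [hS] with ν h1 using ((hg ν h1).2.2 v).symm

end Pool.Agent.W689.Gd
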