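import Mathlib

/-!
# Coding separable Banach spaces by pseudonorms on finitely supported rational sequences
-/

set_option autoImplicit false

namespace Pool.Agent.W689.Gd

/-- `V`: the rational vector space of finitely supported sequences of rationals. -/
abbrev V : Type := ℕ →₀ ℚ

/-- The conditions for `μ : V → ℝ` to be a pseudonorm on `V`. -/
def IsPseudonorm (μ : V → ℝ) : Prop :=
  (∀ v, 0 ≤ μ v) ∧ (∀ (q : ℚ) (v : V), μ (q • v) = |(q : ℝ)| * μ v) ∧
    ∀ u v, μ (u + v) ≤ μ u + μ v

/-- `P`: the space of pseudonorms on `V`, with the topology of pointwise convergence (the subspace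
topology of the product topology of `V → ℝ`). -/
abbrev PN : Type := {μ : V → ℝ // IsPseudonorm μ}

/-- The real Banach space `X` is (linearly isometric to) the completion `X_μ` of
`V / {v | μ v = 0}` with respect to `μ`: there is an additive map `T : V → X` with dense range
and `‖T v‖ = μ v` for every `v`. -/
def IsCompletionOf (μ : PN) (X : Type) [NormedAddCommGroup X] : Prop :=
  ∃ T : V →+ X, (∀ v, ‖T v‖ = μ.1 v) ∧ DenseRange T

/-- `P_∞`: the pseudonorms `μ` such that `X_μ` is infinite-dimensional. -/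
def PInf : Set PN :=
  {μ | ∃ (X : Type) (_ : NormedAddCommGroup X) (_ : NormedSpace ℝ X) (_ : CompleteSpace X),
    ¬ FiniteDimensional ℝ X ∧ IsCompletionOf μ X}

/-- `B`: the elements of `P_∞` that are norms on `V`. -/
def BN : Set PN := {μ | μ ∈ PInf ∧ ∀ v, μ.1 v = 0 → v = 0}

/-- The isometry class of `X` in `J` (`J = P_∞` or `J = B`), a subset of the topological
space `J`: the `μ ∈ J` such that `X` is linearly isometric to `X_μ`. -/
def isometryClass (J : Set PN) (X : Type) [NormedAddCommGroup X] : Set J :=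
  {μ | IsCompletionOf μ.1 X}

/-- The extension property which characterises the Gurarii space among separable Banach spaces: for
all finite-dimensional `E ⊆ F`, every linear isometric embedding `T : E → G` and every `ε > 0`,
there is a linear extension `S : F → G` of `T` with
`(1 - ε) ‖x‖ ≤ ‖S x‖ ≤ (1 + ε) ‖x‖`. -/
def IsGurarii (G : Type) [NormedAddCommGroup G] [NormedSpace ℝ G] : Prop :=
  ∀ (F : Type) [NormedAddCommGroup F] [NormedSpace ℝ F] [FiniteDimensional ℝ F]
    (E : Submodule ℝ F) (T : E →ₗᵢ[ℝ] G) (ε : ℝ), 0 < ε →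
    ∃ S : F →ₗ[ℝ] G, (∀ x : E, S x = T x) ∧
      ∀ x, (1 - ε) * ‖x‖ ≤ ‖S x‖ ∧ ‖S x‖ ≤ (1 + ε) * ‖x‖

end Pool.Agent.W689.Gd
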