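import Pool.Agent.W689.Gd.Closed

set_option autoImplicit false

open Filter Topology Set

namespace Pool.Agent.W689.Gd

section ext

variable {X : Type} [NormedAddCommGroup X] [NormedSpace ℝ X]

theorem map_rat_smul' (T : V →+ X) (q : ℚ) (v : V) : T (q • v) = (q : ℝ) • T v := by
  have := map_ratCast_smul T ℚ ℝ q v
  simpa using this

/-- McShane extension of a function on `V` which is 1-Lipschitz for the pseudonorm -/
theorem exists_ext (T : V →+ X) (f : V → ℝ) (hf : ∀ u v, |f u - f v| ≤ ‖T u - T v‖) :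
    ∃ F : X → ℝ, Continuous F ∧ ∀ v, F (T v) = f v := by
  have hfac : Function.FactorsThrough f T := by
    intro u v huv
    have := hf u v
    rw [huv, sub_self, norm_zero] at this
    exact sub_eq_zero.1 (abs_nonpos_iff.1 this)
  have hL : LipschitzOnWith 1 (Function.extend T f 0) (range T) := by
    refine LipschitzOnWith.of_dist_le_mul ?_
    rintro _ ⟨u, rfl⟩ _ ⟨v, rfl⟩
    rw [hfac.extend_apply, hfac.extend_apply, NNReal.coe_one, one_mul, Real.dist_eq, dist_eq_norm]
    exact hf u v
  obtain ⟨F, hF1, hF2⟩ := hL.extend_real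
  refine ⟨F, hF1.continuous, fun v => ?_⟩
  rw [← hF2 (mem_range_self v), hfac.extend_apply]

/-- density induction in one variable -/
theorem dense_ind {T : V →+ X} (hT : DenseRange T) {p : X → Prop} (hp : IsClosed {x | p x})
    (h : ∀ v, p (T v)) (x : X) : p x :=
  hT.induction_on x hp h

theorem dense_ind₂ {T : V →+ X} (hT : DenseRange T) {p : X → X → Prop}
    (hp : IsClosed {q : X × X | p q.1 q.2}) (h : ∀ u v, p (T u) (T v)) (x y : X) : p x y :=
  hT.induction_on₂ hp h x y

structure Rep (X : Type) [NormedAddCommGroup X] [NormedSpace ℝ X] where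
  h : X → ℝ
  φ : X →L[ℝ] ℝ
  hcont : Continuous h
  nonneg : ∀ x, 0 ≤ h x
  smul : ∀ (r : ℝ) x, h (r • x) = |r| * h x
  add : ∀ x y, h (x + y) ≤ h x + h y
  para : ∀ x y, h (x + y) ^ 2 + h (x - y) ^ 2 = 2 * (h x ^ 2 + h y ^ 2)
  norm : ∀ x, ‖x‖ = max (h x) |φ x|

/-- extension of a pair to the completion -/
theorem exists_rep {μ : PN} (T : V →+ X) (hTn : ∀ v, ‖T v‖ = μ.1 v) (hT : DenseRange T)
    (c : Option ℕ) (p : (V → ℝ) × (V → ℝ)) (hp : p ∈ Pairs c)
    (hμ : ∀ v, μ.1 v = max (p.1 v) |p.2 v|) :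
    ∃ R : Rep X, (∀ v, R.h (T v) = p.1 v) ∧ (∀ v, R.φ (T v) = p.2 v) ∧
      ∀ N, c = some N → ∀ x, |R.φ x| ≤ N * R.h x := by
  obtain ⟨h, f⟩ := p
  obtain ⟨p1, p2, p3, p4, p5, p6⟩ := hp
  simp only at p1 p2 p3 p4 p5 p6 hμ
  have hneg : ∀ v, h (-v) = h v := fun v => by
    have := p2 (-1) v
    simpa using this
  have hh : ∀ u v, |h u - h v| ≤ ‖T u - T v‖ := by
    intro u v
    rw [← map_sub, hTn, hμ]
    have h1 : h u ≤ h (u - v) + h v := by simpa using p3 (u - v) v
    have h2 : h v ≤ h (u - v) + h u := by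
      have := p3 (v - u) u
      rw [sub_add_cancel, ← hneg (v - u), neg_sub] at this
      exact this
    refine le_trans ?_ (le_max_left _ _)
    rw [abs_le]; constructor <;> linarith
  have f0 : f 0 = 0 := by simpa using p5 0 0
  have fneg : ∀ v, f (-v) = - f v := fun v => by
    have := p5 (-v) v
    rw [neg_add_cancel, f0] at this; linarith
  have fsub : ∀ u v, f (u - v) = f u - f v := fun u v => by
    rw [sub_eq_add_neg, p5, fneg]; ring
  have hf : ∀ u v, |f u - f v| ≤ ‖T u - T v‖ := by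
    intro u v
    rw [← map_sub, hTn, hμ, fsub]
    exact le_max_right _ _
  obtain ⟨H, hHc, hH⟩ := exists_ext T h hh
  obtain ⟨F, hFc, hF⟩ := exists_ext T f hf
  have Fadd : ∀ x y, F (x + y) = F x + F y := by
    refine dense_ind₂ hT (isClosed_eq (hFc.comp (continuous_fst.add continuous_snd))
      ((hFc.comp continuous_fst).add (hFc.comp continuous_snd))) fun u v => ?_
    rw [← map_add, hF, hF, hF, p5]
  let Fa : X →+ ℝ := { toFun := F, map_zero' := by simpa using Fadd 0 0, map_add' := Fadd }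
  have Hnn : ∀ x, 0 ≤ H x :=
    dense_ind hT (isClosed_le continuous_const hHc) fun v => by rw [hH]; exact p1 v
  have Hadd : ∀ x y, H (x + y) ≤ H x + H y := by
    refine dense_ind₂ hT (isClosed_le (hHc.comp (continuous_fst.add continuous_snd))
      ((hHc.comp continuous_fst).add (hHc.comp continuous_snd))) fun u v => ?_
    rw [← map_add, hH, hH, hH]; exact p3 u v
  have Hpara : ∀ x y, H (x + y) ^ 2 + H (x - y) ^ 2 = 2 * (H x ^ 2 + H y ^ 2) := by
    refine dense_ind₂ hT (isClosed_eq
      (((hHc.comp (continuous_fst.add continuous_snd)).pow 2).add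
        ((hHc.comp (continuous_fst.sub continuous_snd)).pow 2))
      (continuous_const.mul (((hHc.comp continuous_fst).pow 2).add
        ((hHc.comp continuous_snd).pow 2)))) fun u v => ?_
    rw [← map_add, ← map_sub, hH, hH, hH, hH]; exact p4 u v
  have Hsmul : ∀ (r : ℝ) x, H (r • x) = |r| * H x := by
    intro r
    refine dense_ind hT (isClosed_eq (hHc.comp (continuous_const_smul r))
      (continuous_const.mul hHc)) fun v => ?_
    refine (Rat.denseRange_cast (𝕜 := ℝ)).induction_on (p := fun r : ℝ => H (r • T v) =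
      |r| * H (T v)) r (isClosed_eq (hHc.comp (continuous_id.smul continuous_const))
      (continuous_abs.mul continuous_const)) fun q => ?_
    show H ((q : ℝ) • T v) = |(q : ℝ)| * H (T v)
    rw [← map_rat_smul', hH, hH, p2]
  have Hnorm : ∀ x, ‖x‖ = max (H x) |F x| := by
    refine dense_ind hT (isClosed_eq continuous_norm (hHc.max hFc.abs)) fun v => ?_
    rw [hTn, hH, hF, hμ]
  have hlast : ∀ N, c = some N → ∀ x, |F x| ≤ N * H x := by
    intro N hN
    refine dense_ind hT (isClosed_le hFc.abs (continuous_const.mul hHc)) fun v => ?_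
    rw [hF, hH]; exact p6 N hN v
  exact ⟨⟨H, Fa.toRealLinearMap hFc, hHc, Hnn, Hsmul, Hadd, Hpara, Hnorm⟩, hH, hF, hlast⟩

end ext

end Pool.Agent.W689.Gd
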