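import Pool.Agent.W689.Gd.Struct

set_option autoImplicit false

open Filter Topology Set

namespace Pool.Agent.W689.Gd

/-- a nonzero vector of the kernel of a functional in the span of two independent vectors -/
theorem exists_ker {E : Type} [AddCommGroup E] [Module ℝ E] (ψ : E →ₗ[ℝ] ℝ) (x0 x1 : E) :
    ∃ a b : ℝ, (a ≠ 0 ∨ b ≠ 0) ∧ ψ (a • x0 + b • x1) = 0 := by
  by_cases h : ψ x0 = 0
  · exact ⟨1, 0, Or.inl one_ne_zero, by simp [h]⟩
  · refine ⟨ψ x1, -ψ x0, Or.inr (neg_ne_zero.2 h), ?_⟩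
    simp; ring

noncomputable def bs (n : ℕ) : lp (fun _ : ℕ => ℝ) 2 := lp.single 2 n (1 : ℝ)

theorem bs_apply (n m : ℕ) : (bs n : ℕ → ℝ) m = if m = n then 1 else 0 := by
  unfold bs
  rw [lp.single_apply]
  by_cases h : m = n
  · subst h; simp
  · simp [h]

theorem not_bdd (R : Rep X0) (N : ℝ) (h : ∀ x, |R.φ x| ≤ N * R.h x) : False := by
  obtain ⟨a, b, hab, hk⟩ := exists_ker (R.φ : X0 →ₗ[ℝ] ℝ) (bs 0, 0) (bs 1, 0)
  obtain ⟨x, hx⟩ : ∃ x : X0, x = a • ((bs 0, 0) : X0) + b • ((bs 1, 0) : X0) := ⟨_, rfl⟩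
  rw [← hx] at hk
  have hk' : R.φ x = 0 := hk
  have hx2 : x.2 = 0 := by rw [hx]; simp
  have hx1 : x.1 = a • bs 0 + b • bs 1 := by rw [hx]; simp
  have hne : x.1 ≠ 0 := by
    intro h0
    rw [hx1] at h0
    have e0 := congrArg (fun f : lp (fun _ : ℕ => ℝ) 2 => (f : ℕ → ℝ) 0) h0
    have e1 := congrArg (fun f : lp (fun _ : ℕ => ℝ) 2 => (f : ℕ → ℝ) 1) h0
    simp [bs_apply] at e0 e1
    rcases hab with h | h
    · exact h e0
    · exact h e1
  have hs : 0 < ‖x.1‖ := norm_pos_iff.2 hne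
  have hxn : ‖x‖ = ‖x.1‖ := by
    rw [Prod.norm_def, hx2, norm_zero, max_eq_left (norm_nonneg _)]
  let z : X0 := (0, ‖x.1‖)
  have hzn : ‖z‖ = ‖x.1‖ := by
    show ‖((0 : lp (fun _ : ℕ => ℝ) 2), ‖x.1‖)‖ = _
    rw [Prod.norm_def]; simp
  have hp : ‖z + x‖ = ‖x.1‖ := by
    have e1 : (z + x).1 = x.1 := by show 0 + x.1 = x.1; simp
    have e2 : (z + x).2 = ‖x.1‖ := by show ‖x.1‖ + x.2 = _; rw [hx2, add_zero]
    rw [Prod.norm_def, e1, e2]; simp
  have hm : ‖z - x‖ = ‖x.1‖ := by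
    have e1 : (z - x).1 = - x.1 := by show 0 - x.1 = - x.1; simp
    have e2 : (z - x).2 = ‖x.1‖ := by show ‖x.1‖ - x.2 = _; rw [hx2, sub_zero]
    rw [Prod.norm_def, e1, e2]; simp
  have i1 : R.h (z + x) ≤ ‖x.1‖ := by rw [← hp, R.norm]; exact le_max_left _ _
  have i2 : R.h (z - x) ≤ ‖x.1‖ := by rw [← hm, R.norm]; exact le_max_left _ _
  have i3 : R.h x = ‖x.1‖ := by
    rw [← hxn, R.norm, hk', abs_zero, max_eq_left (R.nonneg x)]
  have i4 := R.para z x
  have n1 := R.nonneg (z + x)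
  have n2 := R.nonneg (z - x)
  have n3 := R.nonneg z
  rw [i3] at i4
  have i5 : R.h z = 0 := by
    have : R.h z ^ 2 ≤ 0 := by nlinarith
    exact pow_eq_zero_iff (two_ne_zero) |>.1 (le_antisymm this (sq_nonneg _))
  have i6 := h z
  rw [i5, mul_zero] at i6
  have i7 : ‖z‖ = 0 := by
    rw [R.norm, i5, le_antisymm i6 (abs_nonneg _)]; simp
  rw [hzn] at i7
  exact hs.ne' i7

theorem not_finDim_X0 : ¬ FiniteDimensional ℝ X0 := by
  intro h
  have hinj : Function.Injective (LinearMap.fst ℝ (lp (fun _ : ℕ => ℝ) 2) ℝ ∘ₗ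
      (LinearMap.inl ℝ (lp (fun _ : ℕ => ℝ) 2) ℝ)) := fun x y hxy => hxy
  haveI : FiniteDimensional ℝ (lp (fun _ : ℕ => ℝ) 2) :=
    FiniteDimensional.of_injective (LinearMap.inl ℝ (lp (fun _ : ℕ => ℝ) 2) ℝ)
      LinearMap.inl_injective
  have hli : LinearIndependent ℝ bs := by
    rw [linearIndependent_iff']
    intro s g hg i hi
    have := congrArg (fun f : lp (fun _ : ℕ => ℝ) 2 => (f : ℕ → ℝ) i) hg
    simp only at this
    have e : (∑ j ∈ s, g j • bs j : lp (fun _ : ℕ => ℝ) 2) i = ∑ j ∈ s, g j * (bs j : ℕ → ℝ) i := by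
      rw [lp.coeFn_sum, Finset.sum_apply]
      rfl
    rw [e] at this
    simp only [bs_apply] at this
    simpa [hi] using this
  exact hli.finite.false

/-- in `P_∞`, being isometric to `ℓ² ⊕_∞ ℝ` means belonging to one closed set and to none of
countably many others -/
theorem class_iff {μ : PN} (hμ : μ ∈ PInf) :
    IsCompletionOf μ X0 ↔ μ ∈ MaxRep (Pairs none) ∧ ∀ N : ℕ, μ ∉ MaxRep (Pairs (some N)) := by
  constructor
  · rintro ⟨T, hT1, hT2⟩
    constructor
    · refine ⟨(fun v => ‖(T v).1‖, fun v => (T v).2), ⟨fun v => norm_nonneg _, ?_, ?_, ?_, ?_, ?_⟩,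
        fun v => norm_nonneg _, fun v => ?_⟩
      · intro q v
        show ‖(T (q • v)).1‖ = |(q : ℝ)| * ‖(T v).1‖
        rw [map_rat_smul', Prod.smul_fst, norm_smul, Real.norm_eq_abs]
      · intro u v
        show ‖(T (u + v)).1‖ ≤ _
        rw [map_add, Prod.fst_add]
        exact norm_add_le _ _
      · intro u v
        show ‖(T (u + v)).1‖ ^ 2 + ‖(T (u - v)).1‖ ^ 2 = 2 * (‖(T u).1‖ ^ 2 + ‖(T v).1‖ ^ 2)
        rw [map_add, map_sub, Prod.fst_add, Prod.fst_sub]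
        have := parallelogram_law_with_norm ℝ (T u).1 (T v).1
        nlinarith [this]
      · intro u v
        show (T (u + v)).2 = (T u).2 + (T v).2
        rw [map_add, Prod.snd_add]
      · intro N hN; exact absurd hN (by simp)
      · rw [← hT1, Prod.norm_def, Real.norm_eq_abs]
    · rintro N ⟨p, hp, -, hmax⟩
      obtain ⟨R, -, -, hR⟩ := exists_rep T hT1 hT2 (some N) p hp hmax
      exact not_bdd R N (hR N rfl)
  · rintro ⟨⟨p, hp, hp0, hmax⟩, hN⟩
    obtain ⟨X, _, _, _, hX, T, hT1, hT2⟩ := hμ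
    obtain ⟨R, hR1, hR2, -⟩ := exists_rep T hT1 hT2 none p hp hmax
    have hunb : ∀ N : ℕ, ∃ x, N * R.h x < |R.φ x| := by
      intro N
      by_contra hcon
      push Not at hcon
      apply hN N
      refine ⟨p, ?_, hp0, hmax⟩
      obtain ⟨p1, p2, p3, p4, p5, -⟩ := hp
      refine ⟨p1, p2, p3, p4, p5, fun M hM v => ?_⟩
      have hM' : N = M := Option.some.inj hM
      subst hM'
      have := hcon (T v)
      rwa [hR1, hR2] at this
    haveI : TopologicalSpace.SeparableSpace X := ⟨range T, countable_range T, hT2⟩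
    obtain ⟨e⟩ := R.iso hX hunb
    refine ⟨(e : X →+ X0).comp T, fun v => ?_, ?_⟩
    · show ‖e (T v)‖ = _
      rw [e.norm_map, hT1]
    · exact e.surjective.denseRange.comp hT2 e.continuous

theorem isGdelta_class (J : Set PN) (hJ : J ⊆ PInf) : IsGδ (isometryClass J X0) := by
  have h : isometryClass J X0 = (Subtype.val ⁻¹' MaxRep (Pairs none)) ∩
      ⋂ N : ℕ, (Subtype.val ⁻¹' (MaxRep (Pairs (some N)))ᶜ : Set J) := by
    ext μ
    show IsCompletionOf μ.1 X0 ↔ _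
    rw [class_iff (hJ μ.2)]
    simp only [mem_inter_iff, mem_preimage, mem_iInter, mem_compl_iff]
  rw [h]
  haveI : TopologicalSpace.PseudoMetrizableSpace (V → ℝ) := UniformSpace.pseudoMetrizableSpace
  haveI : PerfectlyNormalSpace PN := IsInducing.subtypeVal.perfectlyNormalSpace
  haveI : PerfectlyNormalSpace J := IsInducing.subtypeVal.perfectlyNormalSpace
  refine IsGδ.inter ?_ ?_
  · exact ((isClosed_maxRep _ (isClosed_pairs none)).preimage continuous_subtype_val).isGδ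
  · refine IsGδ.iInter fun N => IsOpen.isGδ ?_
    exact (isClosed_maxRep _ (isClosed_pairs (some N))).isOpen_compl.preimage
      continuous_subtype_val

end Pool.Agent.W689.Gd
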