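import Mathlib

set_option autoImplicit false

open Filter Topology Set

namespace Pool.Agent.W689.Gd

/-- a separable infinite-dimensional Hilbert space is isometric to `ℓ²` -/
theorem hilbert_iso (K : Type) [NormedAddCommGroup K] [InnerProductSpace ℝ K] [CompleteSpace K]
    [TopologicalSpace.SeparableSpace K] (hK : ¬ FiniteDimensional ℝ K) :
    Nonempty (K ≃ₗᵢ[ℝ] lp (fun _ : ℕ => ℝ) 2) := by
  obtain ⟨w, b, hb⟩ := exists_hilbertBasis ℝ K
  have hon := b.orthonormal
  -- distances
  have hd : ∀ i j : w, i ≠ j → 1 ≤ dist (b i) (b j) := by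
    intro i j hij
    have h1 : ‖b i - b j‖ ^ 2 = 2 := by
      rw [@norm_sub_sq_real, hon.1 i, hon.1 j, hon.2 hij]; norm_num
    rw [dist_eq_norm]
    nlinarith [norm_nonneg (b i - b j)]
  have hcount : Countable w := by
    have hdis : Pairwise (Function.onFun Disjoint fun i : w => Metric.ball (b i) (1 / 2)) := by
      intro i j hij
      refine Metric.ball_disjoint_ball ?_
      have := hd i j hij
      linarith
    exact hdis.countable_of_isOpen_disjoint (fun i => Metric.isOpen_ball)
      (fun i => ⟨b i, Metric.mem_ball_self (by norm_num)⟩)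
  have hinf : Infinite w := by
    by_contra hfin
    rw [not_infinite_iff_finite] at hfin
    apply hK
    have h1 : (Submodule.span ℝ (range b)).topologicalClosure = ⊤ := b.dense_span
    have hr : (range b).Finite := finite_range b
    haveI : FiniteDimensional ℝ (Submodule.span ℝ (range b)) :=
      FiniteDimensional.span_of_finite ℝ hr
    have hcl : IsClosed ((Submodule.span ℝ (range b) : Submodule ℝ K) : Set K) :=
      Submodule.closed_of_finiteDimensional _
    rw [hcl.submodule_topologicalClosure_eq] at h1
    rw [h1] at this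
    exact (Submodule.topEquiv (R := ℝ) (M := K)).finiteDimensional
  obtain ⟨e⟩ := nonempty_equiv_of_countable (α := ℕ) (β := w)
  have hv : Orthonormal ℝ (b ∘ e) := hon.comp e e.injective
  have hsp : ⊤ ≤ (Submodule.span ℝ (range (b ∘ e))).topologicalClosure := by
    rw [e.surjective.range_comp]
    exact b.dense_span.ge
  exact ⟨(HilbertBasis.mk hv hsp).repr⟩

end Pool.Agent.W689.Gd
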