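import Pool.Agent.W689.Gd.GDelta

set_option autoImplicit false

open Filter Topology Set MeasureTheory

namespace Pool.Agent.W689.Gd

/-- the hyperplane of `ℓ² ⊕_∞ ℝ` satisfies the parallelogram law -/
theorem hyp_para (x y : X0) (hx : x.2 = 0) (hy : y.2 = 0) :
    ‖x + y‖ ^ 2 + ‖x - y‖ ^ 2 = 2 * (‖x‖ ^ 2 + ‖y‖ ^ 2) := by
  have h : ∀ z : X0, z.2 = 0 → ‖z‖ = ‖z.1‖ := fun z hz => by
    rw [Prod.norm_def, hz, norm_zero, max_eq_left (norm_nonneg _)]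
  rw [h x hx, h y hy, h (x + y) (by simp [hx, hy]), h (x - y) (by simp [hx, hy]), Prod.fst_add,
    Prod.fst_sub]
  have := parallelogram_law_with_norm ℝ x.1 y.1
  nlinarith [this]

theorem not_para : ∃ x y : X0, ‖x + y‖ ^ 2 + ‖x - y‖ ^ 2 ≠ 2 * (‖x‖ ^ 2 + ‖y‖ ^ 2) := by
  refine ⟨(bs 0, 0), (0, 1), ?_⟩
  have hb : ‖bs 0‖ = 1 := by
    unfold bs
    rw [lp.norm_single (by norm_num)]
    simp
  have e1 : ‖((bs 0, 0) : X0) + (0, 1)‖ = 1 := by
    rw [Prod.mk_add_mk, Prod.norm_def]; simp [hb]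
  have e2 : ‖((bs 0, 0) : X0) - (0, 1)‖ = 1 := by
    rw [Prod.mk_sub_mk, Prod.norm_def]; simp [hb]
  have e3 : ‖((bs 0, 0) : X0)‖ = 1 := by
    rw [Prod.norm_def]; simp [hb]
  have e4 : ‖((0, 1) : X0)‖ = 1 := by
    rw [Prod.norm_def]; simp
  rw [e1, e2, e3, e4]; norm_num

theorem not_gurarii : ¬ IsGurarii X0 := by
  intro hG
  let T : (⊥ : Submodule ℝ (Fin 4 → ℝ)) →ₗᵢ[ℝ] X0 :=
    { toLinearMap := 0
      norm_map' := fun x => by
        have : x = 0 := Subsingleton.elim _ _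
        rw [this]; simp }
  obtain ⟨S, -, hS⟩ := hG (Fin 4 → ℝ) ⊥ T (1 / 10) (by norm_num)
  let ψ : (Fin 4 → ℝ) →ₗ[ℝ] ℝ := (LinearMap.snd ℝ _ ℝ).comp S
  obtain ⟨a, b, hab, hk⟩ := exists_ker ψ (Pi.single 0 1) (Pi.single 1 1)
  obtain ⟨c, d, hcd, hk'⟩ := exists_ker ψ (Pi.single 2 1) (Pi.single 3 1)
  obtain ⟨f, hf⟩ : ∃ f : Fin 4 → ℝ, f = a • Pi.single 0 1 + b • Pi.single 1 1 := ⟨_, rfl⟩
  obtain ⟨g, hg⟩ : ∃ g : Fin 4 → ℝ, g = c • Pi.single 2 1 + d • Pi.single 3 1 := ⟨_, rfl⟩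
  rw [← hf] at hk
  rw [← hg] at hk'
  have f0 : f 0 = a := by rw [hf]; simp
  have f1 : f 1 = b := by rw [hf]; simp
  have f2 : f 2 = 0 := by rw [hf]; simp
  have f3 : f 3 = 0 := by rw [hf]; simp
  have g0 : g 0 = 0 := by rw [hg]; simp
  have g1 : g 1 = 0 := by rw [hg]; simp
  have g2 : g 2 = c := by rw [hg]; simp
  have g3 : g 3 = d := by rw [hg]; simp
  have hfne : f ≠ 0 := by
    intro h
    rcases hab with h1 | h1
    · apply h1; rw [← f0, h]; rfl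
    · apply h1; rw [← f1, h]; rfl
  have hgne : g ≠ 0 := by
    intro h
    rcases hcd with h1 | h1
    · apply h1; rw [← g2, h]; rfl
    · apply h1; rw [← g3, h]; rfl
  obtain ⟨F, hF⟩ : ∃ F : Fin 4 → ℝ, F = ‖f‖⁻¹ • f := ⟨_, rfl⟩
  obtain ⟨G, hGd⟩ : ∃ G : Fin 4 → ℝ, G = ‖g‖⁻¹ • g := ⟨_, rfl⟩
  have nF : ‖F‖ = 1 := by
    rw [hF, norm_smul, norm_inv, norm_norm, inv_mul_cancel₀ (norm_ne_zero_iff.2 hfne)]
  have nG : ‖G‖ = 1 := by
    rw [hGd, norm_smul, norm_inv, norm_norm, inv_mul_cancel₀ (norm_ne_zero_iff.2 hgne)]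
  have kF : (S F).2 = 0 := by
    have : ψ F = 0 := by rw [hF, map_smul, hk, smul_zero]
    exact this
  have kG : (S G).2 = 0 := by
    have : ψ G = 0 := by rw [hGd, map_smul, hk', smul_zero]
    exact this
  have cF : ∀ i, |F i| ≤ 1 := fun i => by
    have := norm_le_pi_norm F i
    rwa [nF, Real.norm_eq_abs] at this
  have cG : ∀ i, |G i| ≤ 1 := fun i => by
    have := norm_le_pi_norm G i
    rwa [nG, Real.norm_eq_abs] at this
  have F2 : F 2 = 0 := by rw [hF]; simp [f2]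
  have F3 : F 3 = 0 := by rw [hF]; simp [f3]
  have G0 : G 0 = 0 := by rw [hGd]; simp [g0]
  have G1 : G 1 = 0 := by rw [hGd]; simp [g1]
  have hp : ‖F + G‖ ≤ 1 := by
    rw [pi_norm_le_iff_of_nonneg zero_le_one]
    intro i
    rw [Real.norm_eq_abs, Pi.add_apply]
    fin_cases i
    · simpa [G0] using cF 0
    · simpa [G1] using cF 1
    · simpa [F2] using cG 2
    · simpa [F3] using cG 3
  have hm : ‖F - G‖ ≤ 1 := by
    rw [pi_norm_le_iff_of_nonneg zero_le_one]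
    intro i
    rw [Real.norm_eq_abs, Pi.sub_apply]
    fin_cases i
    · simpa [G0] using cF 0
    · simpa [G1] using cF 1
    · simpa [F2] using cG 2
    · simpa [F3] using cG 3
  have key := hyp_para (S F) (S G) kF kG
  rw [← map_add, ← map_sub] at key
  have a1 := (hS (F + G)).2
  have a2 := (hS (F - G)).2
  have a3 := (hS F).1
  have a4 := (hS G).1
  rw [nF] at a3
  rw [nG] at a4
  have b1 : ‖S (F + G)‖ ≤ 11 / 10 := by nlinarith
  have b2 : ‖S (F - G)‖ ≤ 11 / 10 := by nlinarith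
  have b3 : 9 / 10 ≤ ‖S F‖ := by nlinarith
  have b4 : 9 / 10 ≤ ‖S G‖ := by nlinarith
  nlinarith [norm_nonneg (S (F + G)), norm_nonneg (S (F - G))]

section Lp

variable {p : ENNReal} [hp1 : Fact (1 ≤ p)] {α : Type} [MeasurableSpace α] {m : Measure α}

theorem lp_norm_pow (hp : p ≠ ⊤) (f : Lp ℝ p m) :
    ‖f‖ ^ p.toReal = (∫⁻ x, ‖f x‖ₑ ^ p.toReal ∂m).toReal := by
  have hp0 : p ≠ 0 := (lt_of_lt_of_le zero_lt_one hp1.out).ne'
  have hq : 0 < p.toReal := ENNReal.toReal_pos hp0 hp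
  rw [Lp.norm_def, eLpNorm_eq_lintegral_rpow_enorm_toReal hp0 hp, ENNReal.toReal_rpow,
    ← ENNReal.rpow_mul, one_div, inv_mul_cancel₀ hq.ne', ENNReal.rpow_one]

theorem lp_fin (hp : p ≠ ⊤) (f : Lp ℝ p m) : ∫⁻ x, ‖f x‖ₑ ^ p.toReal ∂m ≠ ⊤ := by
  have hp0 : p ≠ 0 := (lt_of_lt_of_le zero_lt_one hp1.out).ne'
  exact (lintegral_rpow_enorm_lt_top_of_eLpNorm_lt_top hp0 hp (Lp.memLp f).2).ne

theorem lp_disj (hp : p ≠ ⊤) (f g : Lp ℝ p m) (h : ∀ᵐ x ∂m, f x = 0 ∨ g x = 0) :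
    ‖f + g‖ ^ p.toReal = ‖f‖ ^ p.toReal + ‖g‖ ^ p.toReal := by
  have hp0 : p ≠ 0 := (lt_of_lt_of_le zero_lt_one hp1.out).ne'
  have hq : 0 < p.toReal := ENNReal.toReal_pos hp0 hp
  rw [lp_norm_pow hp, lp_norm_pow hp, lp_norm_pow hp, ← ENNReal.toReal_add (lp_fin hp f)
    (lp_fin hp g), ← lintegral_add_left' (by
      exact ((Lp.aestronglyMeasurable f).enorm.pow_const _))]
  congr 1
  refine lintegral_congr_ae ?_
  filter_upwards [Lp.coeFn_add f g, h] with x hx h0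
  rw [hx, Pi.add_apply]
  rcases h0 with h0 | h0
  · rw [h0, zero_add, enorm_zero, ENNReal.zero_rpow_of_pos hq, zero_add]
  · rw [h0, add_zero, enorm_zero, ENNReal.zero_rpow_of_pos hq, add_zero]

/-- in a space with a hyperplane satisfying the parallelogram law there are no four disjoint
nonzero functions unless `p = 2` -/
theorem lp_two (hp : p ≠ ⊤) (ψ : Lp ℝ p m →ₗ[ℝ] ℝ)
    (hψ : ∀ x y, ψ x = 0 → ψ y = 0 → ‖x + y‖ ^ 2 + ‖x - y‖ ^ 2 = 2 * (‖x‖ ^ 2 + ‖y‖ ^ 2))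
    (f : Fin 4 → Lp ℝ p m) (hf0 : ∀ i, f i ≠ 0)
    (hf : ∀ᵐ x ∂m, ∀ i j, i ≠ j → f i x = 0 ∨ f j x = 0) : p = 2 := by
  have hp0 : p ≠ 0 := (lt_of_lt_of_le zero_lt_one hp1.out).ne'
  have hq : 0 < p.toReal := ENNReal.toReal_pos hp0 hp
  -- combinations of two of the functions
  have hcomb : ∀ (i j k l : Fin 4), i ≠ k → i ≠ l → j ≠ k → j ≠ l → ∀ a b c d : ℝ,
      ∀ᵐ x ∂m, (a • f i + b • f j : Lp ℝ p m) x = 0 ∨ (c • f k + d • f l : Lp ℝ p m) x = 0 := by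
    intro i j k l hik hil hjk hjl a b c d
    filter_upwards [hf, Lp.coeFn_add (a • f i) (b • f j), Lp.coeFn_add (c • f k) (d • f l),
      Lp.coeFn_smul a (f i), Lp.coeFn_smul b (f j), Lp.coeFn_smul c (f k), Lp.coeFn_smul d (f l)]
      with x h0 h1 h2 h3 h4 h5 h6
    rw [h1, h2, Pi.add_apply, Pi.add_apply, h3, h4, h5, h6]
    simp only [Pi.smul_apply, smul_eq_mul]
    by_cases hi : f i x = 0
    · by_cases hj : f j x = 0
      · left; rw [hi, hj]; simp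
      · right
        have e1 := (h0 j k hjk).resolve_left hj
        have e2 := (h0 j l hjl).resolve_left hj
        rw [e1, e2]; simp
    · right
      have e1 := (h0 i k hik).resolve_left hi
      have e2 := (h0 i l hil).resolve_left hi
      rw [e1, e2]; simp
  have hne : ∀ (i j : Fin 4), i ≠ j → ∀ a b : ℝ, (a ≠ 0 ∨ b ≠ 0) →
      (a • f i + b • f j : Lp ℝ p m) ≠ 0 := by
    intro i j hij a b hab h0
    have h1 : ∀ᵐ x ∂m, (a • f i : Lp ℝ p m) x = 0 ∨ (b • f j : Lp ℝ p m) x = 0 := by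
      filter_upwards [hf, Lp.coeFn_smul a (f i), Lp.coeFn_smul b (f j)] with x h0 h1 h2
      rw [h1, h2]
      rcases h0 i j hij with h | h
      · left; simp [h]
      · right; simp [h]
    have h2 := lp_disj hp _ _ h1
    rw [h0, norm_zero, Real.zero_rpow hq.ne'] at h2
    have n1 : 0 ≤ ‖(a • f i : Lp ℝ p m)‖ ^ p.toReal := by positivity
    have n2 : 0 ≤ ‖(b • f j : Lp ℝ p m)‖ ^ p.toReal := by positivity
    rcases hab with ha | hb
    · have : ‖(a • f i : Lp ℝ p m)‖ ^ p.toReal = 0 := by linarith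
      rw [Real.rpow_eq_zero (norm_nonneg _) hq.ne', norm_eq_zero, smul_eq_zero] at this
      exact this.elim ha (hf0 i)
    · have : ‖(b • f j : Lp ℝ p m)‖ ^ p.toReal = 0 := by linarith
      rw [Real.rpow_eq_zero (norm_nonneg _) hq.ne', norm_eq_zero, smul_eq_zero] at this
      exact this.elim hb (hf0 j)
  obtain ⟨a, b, hab, hk⟩ := exists_ker ψ (f 0) (f 1)
  obtain ⟨c, d, hcd, hk'⟩ := exists_ker ψ (f 2) (f 3)
  have hx0 := hne 0 1 (by decide) a b hab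
  have hy0 := hne 2 3 (by decide) c d hcd
  have hdis := hcomb 0 1 2 3 (by decide) (by decide) (by decide) (by decide)
  obtain ⟨x, hx⟩ : ∃ x : Lp ℝ p m, x = a • f 0 + b • f 1 := ⟨_, rfl⟩
  obtain ⟨y, hy⟩ : ∃ y : Lp ℝ p m, y = c • f 2 + d • f 3 := ⟨_, rfl⟩
  rw [← hx] at hk hx0
  rw [← hy] at hk' hy0
  -- scaling
  have hs : ∀ s t : ℝ, ‖s • x + t • y‖ ^ p.toReal = ‖s • x‖ ^ p.toReal + ‖t • y‖ ^ p.toReal := by
    intro s t
    refine lp_disj hp _ _ ?_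
    have e1 : s • x = (s * a) • f 0 + (s * b) • f 1 := by rw [hx, smul_add, smul_smul, smul_smul]
    have e2 : t • y = (t * c) • f 2 + (t * d) • f 3 := by rw [hy, smul_add, smul_smul, smul_smul]
    rw [e1, e2]
    exact hdis _ _ _ _
  have nx : ‖‖x‖⁻¹ • x‖ = 1 := by
    rw [norm_smul, norm_inv, norm_norm, inv_mul_cancel₀ (norm_ne_zero_iff.2 hx0)]
  have ny : ‖‖y‖⁻¹ • y‖ = 1 := by
    rw [norm_smul, norm_inv, norm_norm, inv_mul_cancel₀ (norm_ne_zero_iff.2 hy0)]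
  have k1 := hs ‖x‖⁻¹ ‖y‖⁻¹
  have k2 := hs ‖x‖⁻¹ (-‖y‖⁻¹)
  have ny' : ‖(-‖y‖⁻¹) • y‖ = 1 := by rw [neg_smul, norm_neg, ny]
  rw [nx, ny, Real.one_rpow] at k1
  rw [nx, ny', Real.one_rpow, neg_smul, ← sub_eq_add_neg] at k2
  have k3 := hψ (‖x‖⁻¹ • x) (‖y‖⁻¹ • y) (by rw [map_smul, hk, smul_zero])
    (by rw [map_smul, hk', smul_zero])
  rw [nx, ny] at k3
  obtain ⟨A, hA⟩ : ∃ A, A = ‖‖x‖⁻¹ • x + ‖y‖⁻¹ • y‖ := ⟨_, rfl⟩
  obtain ⟨B, hB⟩ : ∃ B, B = ‖‖x‖⁻¹ • x - ‖y‖⁻¹ • y‖ := ⟨_, rfl⟩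
  have hA0 : 0 ≤ A := by rw [hA]; exact norm_nonneg _
  have hB0 : 0 ≤ B := by rw [hB]; exact norm_nonneg _
  rw [← hA] at k1 k3
  rw [← hB] at k2 k3
  have hAB : A = B := by
    have h1 : A ^ p.toReal = B ^ p.toReal := by rw [k1, k2]
    exact (Real.rpow_left_inj hA0 hB0 hq.ne').1 h1
  rw [← hAB] at k3
  have hA2 : A ^ 2 = 2 := by nlinarith
  have hA3 : A ^ (2 : ℝ) = 2 := by rw [Real.rpow_two]; exact hA2
  have hA1 : 1 < A := by nlinarith
  have h4 : A ^ p.toReal = A ^ (2 : ℝ) := by rw [k1, hA3]; norm_num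
  have h5 : p.toReal = 2 := by
    have := congrArg Real.log h4
    rw [Real.log_rpow (by linarith), Real.log_rpow (by linarith)] at this
    exact mul_right_cancel₀ (Real.log_pos hA1).ne' this
  have : p = ENNReal.ofReal 2 := by
    rw [← h5, ENNReal.ofReal_toReal hp]
  rw [this]; norm_num

end Lp

/-- `ℓ² ⊕_∞ ℝ` is not isometric to `L_p[0,1]` -/
theorem not_lp (p : ENNReal) [hp1 : Fact (1 ≤ p)] (hp : p ≠ ⊤) :
    IsEmpty (X0 ≃ₗᵢ[ℝ] Lp ℝ p (volume.restrict (Icc (0 : ℝ) 1))) := by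
  refine ⟨fun e => ?_⟩
  have hp0 : p ≠ 0 := (lt_of_lt_of_le zero_lt_one hp1.out).ne'
  have hq : 0 < p.toReal := ENNReal.toReal_pos hp0 hp
  let ψ : Lp ℝ p (volume.restrict (Icc (0 : ℝ) 1)) →ₗ[ℝ] ℝ :=
    (LinearMap.snd ℝ _ ℝ).comp (e.symm.toLinearEquiv : _ →ₗ[ℝ] X0)
  have hψ : ∀ x y, ψ x = 0 → ψ y = 0 → ‖x + y‖ ^ 2 + ‖x - y‖ ^ 2 = 2 * (‖x‖ ^ 2 + ‖y‖ ^ 2) := by
    intro x y hx hy
    have := hyp_para (e.symm x) (e.symm y) hx hy
    rw [← map_add, ← map_sub, e.symm.norm_map, e.symm.norm_map, e.symm.norm_map,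
      e.symm.norm_map] at this
    exact this
  let S : Fin 4 → Set ℝ := fun i => Ico ((i : ℝ) / 4) (((i : ℝ) + 1) / 4)
  have hSm : ∀ i, MeasurableSet (S i) := fun i => measurableSet_Ico
  have hSfin : ∀ i, volume.restrict (Icc (0 : ℝ) 1) (S i) ≠ ⊤ := fun i => measure_ne_top _ _
  let f : Fin 4 → Lp ℝ p (volume.restrict (Icc (0 : ℝ) 1)) := fun i =>
    indicatorConstLp p (hSm i) (hSfin i) (1 : ℝ)
  have hvol : ∀ i, (volume.restrict (Icc (0 : ℝ) 1)).real (S i) = 1 / 4 := by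
    intro i
    have h1 : S i ∩ Icc 0 1 = S i := by
      apply inter_eq_left.2
      intro t ht
      have hi : (i : ℝ) ≤ 3 := by
        have : (i : ℕ) ≤ 3 := by omega
        exact_mod_cast this
      have hi0 : (0 : ℝ) ≤ i := by positivity
      have t1 : (i : ℝ) / 4 ≤ t := ht.1
      have t2 : t < ((i : ℝ) + 1) / 4 := ht.2
      constructor <;> linarith
    rw [measureReal_restrict_apply (hSm i), h1, Real.volume_real_Ico]
    rw [max_eq_left] <;> [ring; skip]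
    have : ((i : ℝ) + 1) / 4 - (i : ℝ) / 4 = 1 / 4 := by ring
    rw [this]; norm_num
  have hf0 : ∀ i, f i ≠ 0 := by
    intro i h
    have h1 : ‖f i‖ = ‖(1 : ℝ)‖ * (volume.restrict (Icc (0 : ℝ) 1)).real (S i) ^ (1 / p.toReal) :=
      norm_indicatorConstLp hp0 hp
    rw [h, norm_zero, hvol] at h1
    have : (0 : ℝ) < (1 / 4) ^ (1 / p.toReal) := by positivity
    simp at h1
    exact absurd h1 (by positivity)
  have hdis : ∀ᵐ x ∂(volume.restrict (Icc (0 : ℝ) 1)), ∀ i j, i ≠ j → f i x = 0 ∨ f j x = 0 := by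
    have h1 : ∀ᵐ x ∂(volume.restrict (Icc (0 : ℝ) 1)), ∀ i, f i x = (S i).indicator (fun _ => 1) x := by
      rw [ae_all_iff]
      intro i
      exact indicatorConstLp_coeFn
    filter_upwards [h1] with x hx i j hij
    rw [hx i, hx j]
    by_contra hcon
    push Not at hcon
    have m1 : x ∈ S i := by
      by_contra h; exact hcon.1 (indicator_of_notMem h _)
    have m2 : x ∈ S j := by
      by_contra h; exact hcon.2 (indicator_of_notMem h _)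
    have a1 : (i : ℝ) / 4 ≤ x := m1.1
    have a2 : x < ((i : ℝ) + 1) / 4 := m1.2
    have a3 : (j : ℝ) / 4 ≤ x := m2.1
    have a4 : x < ((j : ℝ) + 1) / 4 := m2.2
    have c1 : (i : ℝ) < j + 1 := by linarith
    have c2 : (j : ℝ) < i + 1 := by linarith
    have d1 : (i : ℕ) < j + 1 := by exact_mod_cast c1
    have d2 : (j : ℕ) < i + 1 := by exact_mod_cast c2
    exact hij (Fin.ext (by omega))
  have h2 : p = 2 := lp_two hp ψ hψ f hf0 hdis
  subst h2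
  obtain ⟨x, y, hxy⟩ := not_para
  apply hxy
  have := parallelogram_law_with_norm ℝ (e x) (e y)
  rw [← map_add, ← map_sub, e.norm_map, e.norm_map, e.norm_map, e.norm_map] at this
  nlinarith [this]

end Pool.Agent.W689.Gd
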