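import Pool.Agent.W689.Gd.Ext
import Pool.Agent.W689.Gd.Hilb

set_option autoImplicit false

open Filter Topology Set

namespace Pool.Agent.W689.Gd

/-- the space `ℓ² ⊕_∞ ℝ` -/
abbrev X0 : Type := lp (fun _ : ℕ => ℝ) 2 × ℝ

section struct

variable {X : Type} [NormedAddCommGroup X] [NormedSpace ℝ X]

theorem Rep.h_zero (R : Rep X) : R.h 0 = 0 := by simpa using R.smul 0 0

theorem Rep.h_neg (R : Rep X) (x : X) : R.h (-x) = R.h x := by
  have := R.smul (-1) x
  simpa using this

theorem Rep.exists_z [CompleteSpace X] (R : Rep X) (hunb : ∀ N : ℕ, ∃ x, N * R.h x < |R.φ x|) :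
    ∃ z, R.φ z = 1 ∧ R.h z = 0 := by
  have h1 : ∀ N : ℕ, ∃ x, R.φ x = 1 ∧ R.h x ≤ 1 / ((N : ℝ) + 1) := by
    intro N
    obtain ⟨x, hx⟩ := hunb (N + 1)
    have hpos : 0 < |R.φ x| := lt_of_le_of_lt (mul_nonneg (by positivity) (R.nonneg x)) hx
    have hne : R.φ x ≠ 0 := abs_pos.1 hpos
    refine ⟨(R.φ x)⁻¹ • x, ?_, ?_⟩
    · rw [map_smul, smul_eq_mul, inv_mul_cancel₀ hne]
    · rw [R.smul, abs_inv, inv_mul_le_iff₀ hpos, mul_one_div, le_div_iff₀ (by positivity)]
      push_cast at hx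
      linarith
  choose u hu1 hu2 using h1
  have hsub : ∀ n m, ‖u n - u m‖ ≤ 1 / ((n : ℝ) + 1) + 1 / ((m : ℝ) + 1) := by
    intro n m
    rw [R.norm, map_sub, hu1, hu1, sub_self, abs_zero, max_eq_left (R.nonneg _), sub_eq_add_neg]
    refine (R.add _ _).trans ?_
    rw [R.h_neg]
    exact add_le_add (hu2 n) (hu2 m)
  have hc : CauchySeq u := by
    rw [Metric.cauchySeq_iff']
    intro ε hε
    obtain ⟨N, hN⟩ := exists_nat_one_div_lt (show 0 < ε / 2 by linarith)
    refine ⟨N, fun n hn => ?_⟩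
    rw [dist_eq_norm]
    refine (hsub n N).trans_lt ?_
    have : 1 / ((n : ℝ) + 1) ≤ 1 / ((N : ℝ) + 1) := by
      apply one_div_le_one_div_of_le (by positivity)
      have : (N : ℝ) ≤ n := by exact_mod_cast hn
      linarith
    linarith
  obtain ⟨z, hz⟩ := cauchySeq_tendsto_of_complete hc
  refine ⟨z, ?_, ?_⟩
  · refine tendsto_nhds_unique ((R.φ.continuous.tendsto z).comp hz) ?_
    have : R.φ ∘ u = fun _ => 1 := funext hu1
    rw [this]; exact tendsto_const_nhds
  · refine le_antisymm ?_ (R.nonneg z)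
    refine le_of_tendsto_of_tendsto ((R.hcont.tendsto z).comp hz) tendsto_one_div_add_atTop_nhds_zero_nat ?_
    exact Eventually.of_forall fun n => hu2 n

theorem Rep.iso [CompleteSpace X] [TopologicalSpace.SeparableSpace X] (hX : ¬ FiniteDimensional ℝ X)
    (R : Rep X) (hunb : ∀ N : ℕ, ∃ x, N * R.h x < |R.φ x|) : Nonempty (X ≃ₗᵢ[ℝ] X0) := by
  obtain ⟨z, hz1, hz2⟩ := R.exists_z hunb
  obtain ⟨K, hKdef⟩ : ∃ K : Submodule ℝ X, K = LinearMap.ker (R.φ : X →ₗ[ℝ] ℝ) := ⟨_, rfl⟩
  have hmem : ∀ x, x ∈ K ↔ R.φ x = 0 := fun x => by rw [hKdef]; rfl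
  have hnK : ∀ x ∈ K, ‖x‖ = R.h x := fun x hx => by
    rw [R.norm, (hmem x).1 hx, abs_zero, max_eq_left (R.nonneg x)]
  have hcl : IsClosed (K : Set X) := by
    rw [hKdef]
    exact R.φ.isClosed_ker
  haveI : CompleteSpace K := hcl.completeSpace_coe
  haveI : TopologicalSpace.SeparableSpace K := by
    haveI := UniformSpace.secondCountable_of_separable X
    infer_instance
  letI : InnerProductSpace ℝ K := InnerProductSpace.ofNorm ℝ (fun x y => by
    have h := R.para (x : X) (y : X)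
    rw [← hnK _ (K.add_mem x.2 y.2), ← hnK _ (K.sub_mem x.2 y.2), ← hnK _ x.2, ← hnK _ y.2] at h
    have e1 : ‖x + y‖ = ‖(x : X) + y‖ := rfl
    have e2 : ‖x - y‖ = ‖(x : X) - y‖ := rfl
    have e3 : ‖x‖ = ‖(x : X)‖ := rfl
    have e4 : ‖y‖ = ‖(y : X)‖ := rfl
    rw [e1, e2, e3, e4]
    nlinarith [h])
  have hproj : ∀ x, x - R.φ x • z ∈ K := fun x => by
    rw [hmem, map_sub, map_smul, hz1]; simp
  let P : X →ₗ[ℝ] K :=
    { toFun := fun x => ⟨x - R.φ x • z, hproj x⟩
      map_add' := fun x y => by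
        apply Subtype.ext
        show (x + y) - R.φ (x + y) • z = (x - R.φ x • z) + (y - R.φ y • z)
        rw [map_add, add_smul]; abel
      map_smul' := fun r x => by
        apply Subtype.ext
        show r • x - R.φ (r • x) • z = r • (x - R.φ x • z)
        rw [map_smul, smul_sub, smul_smul, smul_eq_mul] }
  have hPn : ∀ x, ‖P x‖ = R.h x := by
    intro x
    have e : ‖P x‖ = ‖x - R.φ x • z‖ := rfl
    rw [e, hnK _ (hproj x)]
    have hz0 : ∀ r : ℝ, R.h (r • z) = 0 := fun r => by rw [R.smul, hz2, mul_zero]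
    apply le_antisymm
    · rw [sub_eq_add_neg]
      refine (R.add _ _).trans ?_
      rw [R.h_neg, hz0, add_zero]
    · have := R.add (x - R.φ x • z) (R.φ x • z)
      rw [sub_add_cancel, hz0, add_zero] at this
      exact this
  have hKinf : ¬ FiniteDimensional ℝ K := by
    intro hfin
    apply hX
    have : Function.Injective (P.prod (R.φ : X →ₗ[ℝ] ℝ)) := by
      intro x y hxy
      have h1 : P x = P y := congrArg Prod.fst hxy
      have h2 : R.φ x = R.φ y := congrArg Prod.snd hxy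
      have h3 : x - R.φ x • z = y - R.φ y • z := congrArg Subtype.val h1
      rw [h2] at h3
      exact sub_left_injective h3
    exact FiniteDimensional.of_injective _ this
  obtain ⟨e⟩ := hilbert_iso K hKinf
  let E : X ≃ₗ[ℝ] X0 :=
    { toFun := fun x => (e (P x), R.φ x)
      map_add' := fun x y => by simp
      map_smul' := fun r x => by simp
      invFun := fun q => (e.symm q.1 : X) + q.2 • z
      left_inv := fun x => by
        show ((e.symm (e (P x)) : K) : X) + R.φ x • z = x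
        rw [e.symm_apply_apply]
        show x - R.φ x • z + R.φ x • z = x
        abel
      right_inv := fun q => by
        have h0 : R.φ ((e.symm q.1 : K) : X) = 0 := (hmem _).1 (e.symm q.1).2
        have h1 : R.φ ((e.symm q.1 : X) + q.2 • z) = q.2 := by
          rw [map_add, map_smul, h0, hz1]; simp
        have h2 : P ((e.symm q.1 : X) + q.2 • z) = e.symm q.1 := by
          apply Subtype.ext
          show (e.symm q.1 : X) + q.2 • z - R.φ ((e.symm q.1 : X) + q.2 • z) • z = e.symm q.1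
          rw [h1]; abel
        apply Prod.ext
        · show e (P ((e.symm q.1 : X) + q.2 • z)) = q.1
          rw [h2, e.apply_symm_apply]
        · exact h1 }
  refine ⟨⟨E, fun x => ?_⟩⟩
  show ‖(e (P x), R.φ x)‖ = ‖x‖
  rw [Prod.norm_def, e.norm_map, hPn, Real.norm_eq_abs, R.norm]

end struct

end Pool.Agent.W689.Gd
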